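import Mathlib

/-!
Gordon's lemma for exactly repeated blocks, and the Schroedinger operator on l2 of the integers.
-/

set_option autoImplicit false

namespace Pool.Agent.Work.MP_e37829_mp

open Filter Topology

/-- transfer coefficients over a block of length `n`. -/
lemma transfer (W : ℕ → ℂ) (n : ℕ) : ∃ a b c d : ℂ, a * d - b * c = 1 ∧
    ∀ (φ : ℤ → ℂ) (s : ℤ),
      (∀ j : ℕ, 1 ≤ j → j ≤ n → φ (s + j + 1) + φ (s + j - 1) = W j * φ (s + j)) →
      φ (s + n + 1) = a * φ (s + 1) + b * φ s ∧ φ (s + n) = c * φ (s + 1) + d * φ s := by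
  induction n with
  | zero => exact ⟨1, 0, 0, 1, by ring, fun φ s _ => by simp⟩
  | succ n ih =>
    obtain ⟨a, b, c, d, hdet, h⟩ := ih
    refine ⟨W (n + 1) * a - c, W (n + 1) * b - d, a, b, by linear_combination hdet, ?_⟩
    intro φ s hφ
    obtain ⟨h1, h2⟩ := h φ s (fun j hj hjn => hφ j hj (by omega))
    have h3 := hφ (n + 1) (by omega) le_rfl
    have e1 : s + ((n + 1 : ℕ) : ℤ) = s + n + 1 := by push_cast; ring
    have e2 : s + n + 1 - 1 = s + n := by ring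
    rw [e1] at h3 ⊢
    rw [e2] at h3
    refine ⟨?_, h1⟩
    rw [h1, h2] at h3
    linear_combination h3

/-- three-block estimate. -/
lemma three_block (U : ℤ → ℂ) (ψ : ℤ → ℂ) (hψ : ∀ n, ψ (n + 1) + ψ (n - 1) = U n * ψ n)
    (p : ℕ) (hp1 : ∀ j : ℕ, 1 ≤ j → j ≤ p → U (j + p) = U j)
    (hp2 : ∀ j : ℕ, 1 ≤ j → j ≤ p → U (j - p) = U j) :
    ∃ t : ℂ, ∀ s : ℤ, (s = 0 ∨ s = 1) →
      ψ (s + p) - t * ψ s + ψ (s - p) = 0 ∧ ψ (s + 2 * p) - t * ψ (s + p) + ψ s = 0 := by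
  obtain ⟨a, b, c, d, hdet, h⟩ := transfer (fun j => U j) p
  have A := h ψ (-p) (fun j hj hjp => by
    rw [hψ, ← hp2 j hj hjp]; congr 2; ring)
  have B := h ψ 0 (fun j hj hjp => by
    rw [hψ]; congr 2; ring)
  have C := h ψ p (fun j hj hjp => by
    rw [hψ, ← hp1 j hj hjp]; congr 2; ring)
  obtain ⟨A1, A2⟩ := A
  obtain ⟨B1, B2⟩ := B
  obtain ⟨C1, C2⟩ := C
  have e1 : (-(p : ℤ) + p + 1) = 1 := by ring
  have e2 : (-(p : ℤ) + p) = 0 := by ring
  rw [e1] at A1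
  rw [e2] at A2
  simp only [zero_add] at B1 B2
  refine ⟨a + d, ?_⟩
  rintro s (rfl | rfl)
  · have e3 : (0 : ℤ) - p = -p := by ring
    have e4 : (0 : ℤ) + 2 * p = p + p := by ring
    rw [e3, e4, zero_add]
    constructor
    · rw [B2, A1, A2]; linear_combination (-ψ (-p)) * hdet
    · rw [C2, B1, B2]; linear_combination (-ψ 0) * hdet
  · have e3 : (1 : ℤ) - p = -p + 1 := by ring
    have e4 : (1 : ℤ) + 2 * p = p + p + 1 := by ring
    have e5 : (1 : ℤ) + p = p + 1 := by ring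
    rw [e3, e4, e5]
    constructor
    · rw [B1, A2]; nth_rewrite 2 [A1]; rw [A1]; linear_combination (-ψ (-p + 1)) * hdet
    · rw [C1, B1, B2]; linear_combination (-ψ 1) * hdet

lemma norm_le_of_two_rel (x y z w t : ℂ) (h1 : y - t * x + z = 0) (h2 : w - t * y + x = 0) :
    ‖x‖ ≤ ‖y‖ + ‖z‖ + ‖w‖ := by
  rcases le_total ‖t‖ 1 with ht | ht
  · have : x = t * y - w := by linear_combination h2
    calc ‖x‖ = ‖t * y - w‖ := by rw [← this]
      _ ≤ ‖t * y‖ + ‖w‖ := norm_sub_le _ _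
      _ = ‖t‖ * ‖y‖ + ‖w‖ := by rw [norm_mul]
      _ ≤ 1 * ‖y‖ + ‖w‖ := by gcongr
      _ ≤ ‖y‖ + ‖z‖ + ‖w‖ := by linarith [norm_nonneg z]
  · have : t * x = y + z := by linear_combination -h1
    calc ‖x‖ = 1 * ‖x‖ := by ring
      _ ≤ ‖t‖ * ‖x‖ := by gcongr
      _ = ‖y + z‖ := by rw [← norm_mul, this]
      _ ≤ ‖y‖ + ‖z‖ := norm_add_le _ _
      _ ≤ ‖y‖ + ‖z‖ + ‖w‖ := by linarith [norm_nonneg w]

/-- Gordon's lemma with exact repetitions. -/
lemma gordon (U : ℤ → ℂ) (ψ : ℤ → ℂ) (hψ : ∀ n, ψ (n + 1) + ψ (n - 1) = U n * ψ n)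
    (P : ℕ → ℕ) (hP : Tendsto P atTop atTop)
    (hp1 : ∀ k, ∀ j : ℕ, 1 ≤ j → j ≤ P k → U (j + P k) = U j)
    (hp2 : ∀ k, ∀ j : ℕ, 1 ≤ j → j ≤ P k → U (j - P k) = U j)
    (hlim : Tendsto ψ cofinite (𝓝 0)) : ψ = 0 := by
  have htop : Tendsto ψ atTop (𝓝 0) := hlim.mono_left (by rw [Int.cofinite_eq]; exact le_sup_right)
  have hbot : Tendsto ψ atBot (𝓝 0) := hlim.mono_left (by rw [Int.cofinite_eq]; exact le_sup_left)
  have hPZ : Tendsto (fun k => (P k : ℤ)) atTop atTop := tendsto_natCast_atTop_atTop.comp hP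
  have key : ∀ s : ℤ, (s = 0 ∨ s = 1) → ψ s = 0 := by
    intro s hs
    have t1 : Tendsto (fun k => ψ (s + P k)) atTop (𝓝 0) :=
      htop.comp (tendsto_atTop_add_const_left _ _ hPZ)
    have t2 : Tendsto (fun k => ψ (s - P k)) atTop (𝓝 0) :=
      hbot.comp (by
        simp only [sub_eq_add_neg]
        exact tendsto_atBot_add_const_left _ _ (tendsto_neg_atTop_atBot.comp hPZ))
    have t3 : Tendsto (fun k => ψ (s + 2 * P k)) atTop (𝓝 0) :=
      htop.comp (tendsto_atTop_add_const_left _ _ (hPZ.const_mul_atTop' (by norm_num)))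
    have t4 := (t1.norm.add t2.norm).add t3.norm
    simp only [norm_zero, add_zero] at t4
    have : ‖ψ s‖ ≤ 0 := by
      refine ge_of_tendsto' t4 (fun k => ?_)
      obtain ⟨t, ht⟩ := three_block U ψ hψ (P k) (hp1 k) (hp2 k)
      obtain ⟨h1, h2⟩ := ht s hs
      exact norm_le_of_two_rel _ _ _ _ t h1 h2
    exact norm_le_zero_iff.mp this
  have both : ∀ n : ℤ, ψ n = 0 ∧ ψ (n + 1) = 0 := by
    intro n
    induction n using Int.induction_on with
    | zero => exact ⟨key 0 (Or.inl rfl), by simpa using key 1 (Or.inr rfl)⟩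
    | succ n ih =>
      refine ⟨ih.2, ?_⟩
      have := hψ (n + 1)
      rw [ih.2, add_sub_cancel_right, ih.1] at this
      simpa using this
    | pred n ih =>
      refine ⟨?_, by rw [sub_add_cancel]; exact ih.1⟩
      have := hψ (-n)
      rw [ih.2, ih.1] at this
      simpa using this
  funext n
  exact (both n).1

/-- the shift on l2. -/
noncomputable def shift (a : ℤ) : lp (fun _ : ℤ => ℂ) 2 →L[ℂ] lp (fun _ : ℤ => ℂ) 2 :=
  LinearMap.mkContinuous
    { toFun := fun ψ => ⟨fun n => ψ (n + a), by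
        have h := (lp.memℓp ψ).summable (by norm_num)
        exact memℓp_gen (((Equiv.addRight a).summable_iff
          (f := fun n => ‖ψ n‖ ^ (2 : ENNReal).toReal)).mpr h)⟩
      map_add' := fun _ _ => by ext; rfl
      map_smul' := fun _ _ => by ext; simp }
    1
    (fun ψ => by
      rw [one_mul]
      refine lp.norm_le_of_tsum_le (by norm_num) (norm_nonneg _) ?_
      rw [lp.norm_rpow_eq_tsum (by norm_num)]
      exact le_of_eq ((Equiv.addRight a).tsum_eq (fun n => ‖ψ n‖ ^ (2 : ENNReal).toReal)))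

lemma shift_apply (a : ℤ) (ψ : lp (fun _ : ℤ => ℂ) 2) (n : ℤ) : shift a ψ n = ψ (n + a) := rfl

lemma exists_operator (V : ℤ → ℝ) (C : ℝ) (hC : ∀ n, |V n| ≤ C) :
    ∃ H : lp (fun _ : ℤ => ℂ) 2 →L[ℂ] lp (fun _ : ℤ => ℂ) 2,
      ∀ (ψ : lp (fun _ : ℤ => ℂ) 2) (n : ℤ),
        (H ψ) n = ψ (n + 1) + ψ (n - 1) + ((V n : ℝ) : ℂ) * ψ n := by
  have hC0 : 0 ≤ C := (abs_nonneg _).trans (hC 0)
  refine ⟨shift 1 + shift (-1) + lp.mapCLM 2
    (fun n => ((V n : ℝ) : ℂ) • ContinuousLinearMap.id ℂ ℂ) hC0 (fun n => ?_), ?_⟩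
  · rw [norm_smul]
    calc ‖((V n : ℝ) : ℂ)‖ * ‖ContinuousLinearMap.id ℂ ℂ‖ ≤ C * 1 := by
          gcongr
          · simpa using hC n
          · exact ContinuousLinearMap.norm_id_le
      _ = C := mul_one C
  · intro ψ n
    simp [shift_apply, sub_eq_add_neg]

end Pool.Agent.Work.MP_e37829_mp
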