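import Mathlib
import Pool.Agent.Work.MP_e37829_mp.Gordon

/-!
An explicit continuous sampling function on the 2-adic integers.
-/

set_option autoImplicit false

namespace Pool.Agent.Work.MP_e37829_mp

open Filter Topology

/-- reduction mod `16 ^ k`, as a point of the circle. -/
noncomputable def chi (k : ℕ) : ℤ_[2] →+ UnitAddCircle :=
  (ZMod.toAddCircle (N := 2 ^ (4 * k))).comp (PadicInt.toZModPow (p := 2) (4 * k)).toAddMonoidHom

lemma chi_intCast (k : ℕ) (n : ℤ) : chi k (n : ℤ_[2]) = (((n : ℝ) / 16 ^ k : ℝ) : UnitAddCircle) := by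
  have : chi k (n : ℤ_[2]) = ZMod.toAddCircle (N := 2 ^ (4 * k)) (n : ZMod (2 ^ (4 * k))) := by
    simp [chi]
  rw [this, ZMod.toAddCircle_intCast]
  congr 2
  push_cast
  rw [pow_mul]; norm_num

lemma chi_mul (k : ℕ) (y : ℤ_[2]) : chi k (16 ^ k * y) = 0 := by
  have h : (16 ^ k * y : ℤ_[2]) ∈ RingHom.ker (PadicInt.toZModPow (p := 2) (4 * k)) := by
    rw [PadicInt.ker_toZModPow, Ideal.mem_span_singleton]
    refine ⟨y, ?_⟩
    rw [pow_mul]; norm_num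
  rw [RingHom.mem_ker] at h
  simp only [chi, AddMonoidHom.comp_apply, RingHom.toAddMonoidHom_eq_coe, AddMonoidHom.coe_coe]
  rw [h, map_zero]

lemma continuous_chi (k : ℕ) : Continuous (chi k) := by
  refine continuous_of_continuousAt_zero (chi k) ?_
  have hev : ∀ᶠ x : ℤ_[2] in 𝓝 0, chi k x = chi k 0 := by
    have : Metric.closedBall (0 : ℤ_[2]) ((2 : ℝ) ^ (-((4 * k : ℕ) : ℤ))) ∈ 𝓝 (0 : ℤ_[2]) :=
      Metric.closedBall_mem_nhds _ (by positivity)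
    filter_upwards [this] with x hx
    rw [Metric.mem_closedBall, dist_zero_right] at hx
    have hx' := (PadicInt.norm_le_pow_iff_mem_span_pow x (4 * k)).mp (by simpa using hx)
    rw [Ideal.mem_span_singleton] at hx'
    obtain ⟨y, rfl⟩ := hx'
    have : ((2 : ℕ) : ℤ_[2]) ^ (4 * k) = 16 ^ k := by rw [pow_mul]; norm_num
    rw [this, chi_mul, map_zero]
  exact (continuousAt_const).congr (EventuallyEq.symm hev)

lemma norm_coe_le (x : ℝ) : ‖(x : UnitAddCircle)‖ ≤ |x| := by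
  rw [UnitAddCircle.norm_eq]
  simpa using round_le x 0

lemma norm_chi_intCast_le (k : ℕ) (n : ℤ) : ‖chi k (n : ℤ_[2])‖ ≤ |(n : ℝ)| / 16 ^ k := by
  rw [chi_intCast]
  refine (norm_coe_le _).trans (le_of_eq ?_)
  rw [abs_div, abs_of_pos (by positivity : (0 : ℝ) < 16 ^ k)]

/-- truncated distance to the multiples of `16 ^ k`, weighted. -/
noncomputable def aa (k : ℕ) (x : ℤ_[2]) : ℝ := 4 ^ k * min ‖chi k x‖ (1 / 32)

lemma aa_nonneg (k : ℕ) (x : ℤ_[2]) : 0 ≤ aa k x := by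
  unfold aa; positivity

lemma continuous_aa (k : ℕ) : Continuous (aa k) := by
  unfold aa
  have := continuous_chi k
  fun_prop

lemma aa_sub_le (k : ℕ) (x : ℤ_[2]) (n : ℤ) :
    |aa k x - aa k (x + n)| ≤ |(n : ℝ)| * (1 / 4) ^ k := by
  unfold aa
  rw [← mul_sub, abs_mul, abs_of_pos (by positivity : (0 : ℝ) < 4 ^ k)]
  have h1 : |min ‖chi k x‖ (1 / 32) - min ‖chi k (x + n)‖ (1 / 32)|
      ≤ |‖chi k x‖ - ‖chi k (x + n)‖| := by
    have := abs_min_sub_min_le_max ‖chi k x‖ (1 / 32) ‖chi k (x + n)‖ (1 / 32)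
    simpa using this
  have h2 : |‖chi k x‖ - ‖chi k (x + n)‖| ≤ |(n : ℝ)| / 16 ^ k := by
    refine (abs_norm_sub_norm_le _ _).trans ?_
    rw [map_add, sub_add_cancel_left, norm_neg]
    exact norm_chi_intCast_le k n
  calc 4 ^ k * |min ‖chi k x‖ (1 / 32) - min ‖chi k (x + n)‖ (1 / 32)|
      ≤ 4 ^ k * (|(n : ℝ)| / 16 ^ k) := by gcongr; exact h1.trans h2
    _ = |(n : ℝ)| * (1 / 4) ^ k := by
      have : (16 : ℝ) ^ k = 4 ^ k * 4 ^ k := by rw [← mul_pow]; norm_num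
      rw [this, one_div, inv_pow]; field_simp

/-- the increments. -/
noncomputable def DD (k : ℕ) (x : ℤ_[2]) : ℝ := aa k x - aa k (x + 1)

lemma DD_le (k : ℕ) (x : ℤ_[2]) : ‖DD k x‖ ≤ (1 / 4) ^ k := by
  have := aa_sub_le k x 1
  simpa [DD] using this

lemma summable_geom : Summable (fun k : ℕ => (1 / 4 : ℝ) ^ k) :=
  summable_geometric_of_lt_one (by norm_num) (by norm_num)

/-- the limit-periodic increment. -/
noncomputable def dd (x : ℤ_[2]) : ℝ := ∑' k, DD k x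

lemma continuous_dd : Continuous dd := by
  refine continuous_tsum (fun k => ?_) summable_geom (fun k x => DD_le k x)
  unfold DD
  have := continuous_aa k
  fun_prop

/-- the sampling function. -/
noncomputable def ff : C(ℤ_[2], ℝ) :=
  ⟨fun x => -(Real.exp (dd x) + Real.exp (-dd (x - 1))), by
    have := continuous_dd
    fun_prop⟩

lemma ff_apply (x : ℤ_[2]) : ff x = -(Real.exp (dd x) + Real.exp (-dd (x - 1))) := rfl

lemma aa_zero (k : ℕ) : aa k 0 = 0 := by simp [aa]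

lemma summable_aa (n : ℤ) : Summable (fun k => aa k (n : ℤ_[2])) := by
  refine Summable.of_nonneg_of_le (fun k => aa_nonneg _ _) (fun k => ?_)
    (summable_geom.mul_left |(n : ℝ)|)
  have := aa_sub_le k 0 n
  rw [aa_zero, zero_add, zero_sub, abs_neg] at this
  exact (le_abs_self _).trans this

/-- minus the logarithm of the eigenfunction. -/
noncomputable def gg (n : ℤ) : ℝ := ∑' k, aa k (n : ℤ_[2])

lemma dd_intCast (n : ℤ) : dd (n : ℤ_[2]) = gg n - gg (n + 1) := by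
  unfold dd gg DD
  rw [← (summable_aa n).tsum_sub (summable_aa (n + 1))]
  push_cast
  rfl

lemma eigen_eq (n : ℤ) :
    Real.exp (-gg (n + 1)) + Real.exp (-gg (n - 1)) + ff (n : ℤ_[2]) * Real.exp (-gg n) = 0 := by
  rw [ff_apply]
  have h1 := dd_intCast n
  have h2 := dd_intCast (n - 1)
  rw [sub_add_cancel] at h2
  push_cast at h2
  rw [h1, h2, neg_mul, add_mul, ← Real.exp_add, ← Real.exp_add]
  have e1 : gg n - gg (n + 1) + -gg n = -gg (n + 1) := by ring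
  have e2 : -(gg (n - 1) - gg n) + -gg n = -gg (n - 1) := by ring
  rw [e1, e2]; ring

lemma exp_gg_le (n : ℤ) (hn : n ≠ 0) :
    Real.exp (-gg n) ^ 2 ≤ (24 * 16 ^ 4) * (1 / (n : ℝ) ^ 2) := by
  set m : ℕ := 2 * n.natAbs with hm
  have hm0 : m ≠ 0 := by simp [hm, hn]
  set k : ℕ := Nat.log 16 m + 1 with hk
  have h1 : m < 16 ^ k := Nat.lt_pow_succ_log_self (by norm_num) m
  have h2 : 16 ^ (Nat.log 16 m) ≤ m := Nat.pow_log_le_self 16 hm0
  have hmR : (m : ℝ) = 2 * |(n : ℝ)| := by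
    rw [hm]; push_cast; rw [Nat.cast_natAbs]; push_cast; rfl
  have h1R : 2 * |(n : ℝ)| < 16 ^ k := by rw [← hmR]; exact_mod_cast h1
  have h2R : (16 : ℝ) ^ k ≤ 32 * |(n : ℝ)| := by
    have : ((16 : ℝ)) ^ (Nat.log 16 m) ≤ 2 * |(n : ℝ)| := by rw [← hmR]; exact_mod_cast h2
    rw [hk, pow_succ]; linarith
  have hpos : (0 : ℝ) < 16 ^ k := by positivity
  have hnorm : ‖chi k (n : ℤ_[2])‖ = |(n : ℝ)| / 16 ^ k := by
    rw [chi_intCast, (AddCircle.norm_coe_eq_abs_iff (1 : ℝ) one_ne_zero).mpr, abs_div,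
      abs_of_pos hpos]
    rw [abs_div, abs_of_pos hpos, abs_one, div_le_iff₀ hpos]; linarith
  have haa : aa k (n : ℤ_[2]) = 4 ^ k / 32 := by
    unfold aa
    rw [min_eq_right, mul_one_div]
    rw [hnorm, le_div_iff₀ hpos]; linarith
  have hg : (4 : ℝ) ^ k / 32 ≤ gg n := by
    rw [← haa]
    exact (summable_aa n).le_tsum k (fun j _ => aa_nonneg _ _)
  have hy : (0 : ℝ) < 4 ^ k / 16 := by positivity
  have hexp : ((4 : ℝ) ^ k / 16) ^ 4 / 24 ≤ Real.exp (4 ^ k / 16) := by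
    have := Real.pow_div_factorial_le_exp (4 ^ k / 16 : ℝ) hy.le 4
    simpa [Nat.factorial] using this
  have hn2 : (0 : ℝ) < (n : ℝ) ^ 2 := by
    have : (n : ℝ) ≠ 0 := by exact_mod_cast hn
    positivity
  have h16 : ((4 : ℝ) ^ k) ^ 4 = (16 ^ k) ^ 2 := by
    rw [← pow_mul, ← pow_mul, mul_comm k 4, mul_comm k 2, pow_mul, pow_mul]; norm_num
  have hsq : (n : ℝ) ^ 2 ≤ ((16 : ℝ) ^ k) ^ 2 := by
    rw [← sq_abs (n : ℝ)]
    gcongr
    linarith [abs_nonneg (n : ℝ)]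
  calc Real.exp (-gg n) ^ 2 = Real.exp (-(2 * gg n)) := by
        rw [← Real.exp_nat_mul]; congr 1; push_cast; ring
    _ ≤ Real.exp (-(4 ^ k / 16)) := by gcongr; linarith
    _ = (Real.exp (4 ^ k / 16))⁻¹ := Real.exp_neg _
    _ ≤ (((4 : ℝ) ^ k / 16) ^ 4 / 24)⁻¹ := by gcongr
    _ = (24 * 16 ^ 4) * (1 / ((16 : ℝ) ^ k) ^ 2) := by
        rw [← h16]; field_simp
    _ ≤ (24 * 16 ^ 4) * (1 / (n : ℝ) ^ 2) := by gcongr

lemma summable_eigen : Summable (fun n : ℤ => Real.exp (-gg n) ^ 2) := by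
  have h : Summable (fun n : ℤ => (24 * 16 ^ 4 : ℝ) * (1 / (n : ℝ) ^ 2)) :=
    (Real.summable_one_div_int_pow.mpr (by norm_num)).mul_left _
  refine Summable.of_norm_bounded_eventually h ?_
  filter_upwards [eventually_cofinite_ne 0] with n hn
  rw [Real.norm_of_nonneg (by positivity)]
  exact exp_gg_le n hn

/-- the phase `-1/3`. -/
lemma exists_phase : ∃ w : ℤ_[2], 3 * w = -1 := by
  have h : IsUnit (3 : ℤ_[2]) := by
    rw [PadicInt.isUnit_iff]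
    have h1 : ‖((3 : ℤ) : ℤ_[2])‖ ≤ 1 := PadicInt.norm_le_one _
    have h2 : ¬ ‖((3 : ℤ) : ℤ_[2])‖ < 1 := by
      rw [PadicInt.norm_int_lt_one_iff_dvd]; norm_num
    have : ‖((3 : ℤ) : ℤ_[2])‖ = 1 := le_antisymm h1 (not_lt.mp h2)
    simpa using this
  obtain ⟨u, hu⟩ := h
  refine ⟨-(↑u⁻¹ : ℤ_[2]), ?_⟩
  rw [← hu]; simp

lemma norm_chi_phase (w : ℤ_[2]) (hw : 3 * w = -1) (j : ℕ) (hj : 1 ≤ j) :
    5 / 16 ≤ ‖chi j w‖ := by
  obtain ⟨m, hm⟩ : ∃ m : ℤ, 16 ^ j = 3 * m + 1 := by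
    have : (3 : ℤ) ∣ 16 ^ j - 1 := by
      have := sub_dvd_pow_sub_pow (16 : ℤ) 1 j
      rw [one_pow] at this
      exact Dvd.dvd.trans (by norm_num) this
    obtain ⟨m, hm⟩ := this
    exact ⟨m, by linarith⟩
  have hm2 : (16 : ℤ_[2]) ^ j = 3 * m + 1 := by exact_mod_cast congrArg (Int.cast : ℤ → ℤ_[2]) hm
  have hmR : (16 : ℝ) ^ j = 3 * m + 1 := by exact_mod_cast hm
  have hw2 : w = (m : ℤ_[2]) + 16 ^ j * w := by
    rw [hm2]; linear_combination (-(m : ℤ_[2])) * hw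
  have h16 : (16 : ℝ) ≤ 16 ^ j := by
    calc (16 : ℝ) = 16 ^ 1 := by norm_num
      _ ≤ 16 ^ j := by gcongr; norm_num
  have hpos : (0 : ℝ) < 16 ^ j := by positivity
  have hm0 : (0 : ℝ) ≤ m := by linarith
  rw [hw2, map_add, chi_mul, add_zero, chi_intCast,
    (AddCircle.norm_coe_eq_abs_iff (1 : ℝ) one_ne_zero).mpr, abs_of_nonneg (by positivity),
    le_div_iff₀ hpos]
  · linarith
  · rw [abs_of_nonneg (by positivity), abs_one, div_le_iff₀ hpos]; linarith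

lemma aa_phase (w : ℤ_[2]) (hw : 3 * w = -1) (k j : ℕ) (hj : k < j) (n : ℤ)
    (hn : |n| ≤ 4 * 16 ^ k) : aa j (n + w) = 4 ^ j / 32 := by
  unfold aa
  rw [min_eq_right, mul_one_div]
  have h1 := norm_chi_phase w hw j (by omega)
  have h2 := norm_chi_intCast_le j n
  have hnR : |(n : ℝ)| ≤ 4 * 16 ^ k := by exact_mod_cast hn
  have h3 : |(n : ℝ)| / 16 ^ j ≤ 1 / 4 := by
    rw [div_le_iff₀ (by positivity)]
    calc |(n : ℝ)| ≤ 4 * 16 ^ k := hnR
      _ = 1 / 4 * 16 ^ (k + 1) := by ring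
      _ ≤ 1 / 4 * 16 ^ j := by gcongr; norm_num; omega
  have h4 : ‖chi j w‖ ≤ ‖chi j (n + w)‖ + ‖chi j n‖ := by
    have : chi j w = chi j (n + w) - chi j n := by rw [map_add]; abel
    rw [this]; exact norm_sub_le _ _
  linarith

lemma aa_periodic (k j : ℕ) (hj : j ≤ k) (x y : ℤ_[2]) : aa j (x + 16 ^ k * y) = aa j x := by
  unfold aa
  obtain ⟨i, rfl⟩ := Nat.exists_eq_add_of_le hj
  rw [map_add, pow_add, mul_assoc, chi_mul, add_zero]

lemma dd_phase (w : ℤ_[2]) (hw : 3 * w = -1) (k : ℕ) (n n' y : ℤ) (h : n' = n + 16 ^ k * y)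
    (hn : |n| ≤ 3 * 16 ^ k) (hn' : |n'| ≤ 3 * 16 ^ k) : dd (n' + w) = dd (n + w) := by
  unfold dd
  congr 1
  funext j
  have h1 : (1 : ℤ) ≤ 16 ^ k := one_le_pow₀ (by norm_num)
  rcases le_or_gt j k with hj | hj
  · unfold DD
    have e1 : (n' : ℤ_[2]) + w = (n + w) + 16 ^ k * (y : ℤ_[2]) := by rw [h]; push_cast; ring
    have e2 : (n' : ℤ_[2]) + w + 1 = (n + w + 1) + 16 ^ k * (y : ℤ_[2]) := by
      rw [h]; push_cast; ring
    rw [e2, e1, aa_periodic k j hj, aa_periodic k j hj]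
  · unfold DD
    have e1 : (n' : ℤ_[2]) + w + 1 = ((n' + 1 : ℤ) : ℤ_[2]) + w := by push_cast; ring
    have e2 : (n : ℤ_[2]) + w + 1 = ((n + 1 : ℤ) : ℤ_[2]) + w := by push_cast; ring
    rw [abs_le] at hn hn'
    rw [e1, e2, aa_phase w hw k j hj, aa_phase w hw k j hj, aa_phase w hw k j hj,
      aa_phase w hw k j hj] <;> rw [abs_le] <;> constructor <;> linarith [hn.1, hn.2, hn'.1, hn'.2]

lemma ff_phase (w : ℤ_[2]) (hw : 3 * w = -1) (k : ℕ) (n n' y : ℤ) (h : n' = n + 16 ^ k * y)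
    (hn : |n| ≤ 2 * 16 ^ k) (hn' : |n'| ≤ 2 * 16 ^ k) : ff (n' + w) = ff (n + w) := by
  have h1 : (1 : ℤ) ≤ 16 ^ k := one_le_pow₀ (by norm_num)
  rw [ff_apply, ff_apply]
  have e1 : (n' : ℤ_[2]) + w - 1 = ((n' - 1 : ℤ) : ℤ_[2]) + w := by push_cast; ring
  have e2 : (n : ℤ_[2]) + w - 1 = ((n - 1 : ℤ) : ℤ_[2]) + w := by push_cast; ring
  rw [abs_le] at hn hn'
  rw [e1, e2, dd_phase w hw k n n' y h, dd_phase w hw k (n - 1) (n' - 1) y (by rw [h]; ring)] <;>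
    rw [abs_le] <;> constructor <;> linarith [hn.1, hn.2, hn'.1, hn'.2]

end Pool.Agent.Work.MP_e37829_mp
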